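import Pool.Agent.EDG.Stmts

/-! EDG, row RNK (the rank at a point). -/

namespace Pool.Agent.EDG.H75

open Polynomial Finset

/-- the specialisation `X = z` of the coefficients. -/
noncomputable def ph (z : ℂ) : ℤ[X][X] →+* ℂ[X] :=
  mapRingHom (eval₂RingHom (Int.castRingHom ℂ) z)

theorem ph_C (z : ℂ) (a : ℤ[X]) : ph z (C a) = C (aeval z a) := by
  simp [ph, aeval_def]

theorem eval_ph (z y : ℂ) (p : ℤ[X][X]) : eval y (ph z p) = ev z y p := by
  simp only [ph, ev, coe_mapRingHom, coe_eval₂RingHom, eval_map]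

theorem ph_h (z : ℂ) (i : ℕ) : (ph z (h i)).Monic ∧ (ph z (h i)).natDegree = i := by
  have h1 := h_monic i
  refine ⟨h1.map _, ?_⟩
  have h2 := h1.natDegree_map (eval₂RingHom (Int.castRingHom ℂ) z)
  rw [h_natDegree] at h2
  exact h2

/-- the sequence `h_i(z, .)`. -/
noncomputable def sq (z : ℂ) : Polynomial.Sequence ℂ where
  elems' := fun i => ph z (h i)
  degree_eq' := fun i => by
    obtain ⟨h1, h2⟩ := ph_h z i
    rw [degree_eq_natDegree h1.ne_zero, h2]

theorem lin_zero (z : ℂ) (N : ℕ) (w : Fin N → ℂ)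
    (hw : ∑ i : Fin N, w i • ph z (h (i : ℕ)) = 0) : w = 0 := by
  have h1 := (sq z).linearIndependent
  have h2 : LinearIndependent ℂ (fun i : Fin N => ph z (h (i : ℕ))) :=
    h1.comp (fun i : Fin N => (i : ℕ)) Fin.val_injective
  rw [Fintype.linearIndependent_iff] at h2
  funext i
  exact h2 w hw i

/-- the map `v ↦ ∑ v_k p_k(z, .)`. -/
noncomputable def TT {r : ℕ} (P : Fin r → ℂ[X]) : (Fin r → ℂ) →ₗ[ℂ] ℂ[X] :=
  Fintype.linearCombination ℂ P

theorem TT_apply {r : ℕ} (P : Fin r → ℂ[X]) (v : Fin r → ℂ) : TT P v = ∑ k, v k • P k := by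
  unfold TT
  rw [Fintype.linearCombination_apply]

theorem range_le {r q : ℕ} (P : Fin r → ℂ[X]) (J : Finset ℂ) (hJ : J.card = q)
    (hd : ∀ k, (P k).degree < (r : WithBot ℕ)) (h0 : ∀ k, ∀ y ∈ J, eval y (P k) = 0) :
    LinearMap.range (TT P) ≤
      (degreeLT ℂ (r - q)).map (LinearMap.mulLeft ℂ (∏ y ∈ J, (X - C y))) := by
  rintro Q ⟨v, rfl⟩
  have hdeg : (TT P v).degree < (r : WithBot ℕ) := by
    rw [← mem_degreeLT, TT_apply]
    refine Submodule.sum_mem _ fun k _ => ?_
    exact Submodule.smul_mem _ _ (mem_degreeLT.2 (hd k))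
  have hev : ∀ y ∈ J, eval y (TT P v) = 0 := by
    intro y hy
    rw [TT_apply, eval_finsetSum]
    refine Finset.sum_eq_zero fun k _ => ?_
    rw [eval_smul, h0 k y hy, smul_zero]
  have hdvd : (∏ y ∈ J, (X - C y)) ∣ TT P v := by
    refine Finset.prod_dvd_of_coprime ?_ ?_
    · intro a _ b _ hab
      exact pairwise_coprime_X_sub_C (s := fun y : ℂ => y) Function.injective_id hab
    · intro y hy
      rw [dvd_iff_isRoot]
      exact hev y hy
  obtain ⟨R, hR⟩ := hdvd
  refine ⟨R, ?_, ?_⟩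
  · change R ∈ degreeLT ℂ (r - q)
    rw [mem_degreeLT]
    by_cases hR0 : R = 0
    · rw [hR0, degree_zero]
      exact WithBot.bot_lt_coe _
    · have hDm : (∏ y ∈ J, (X - C y) : ℂ[X]).Monic := monic_prod_of_monic _ _ fun y _ => monic_X_sub_C y
      have hDd : (∏ y ∈ J, (X - C y) : ℂ[X]).natDegree = q := by
        rw [natDegree_prod_of_monic _ _ fun y _ => monic_X_sub_C y]
        simp [hJ]
      have hQ0 : TT P v ≠ 0 := by
        rw [hR]
        exact mul_ne_zero hDm.ne_zero hR0
      have h3 : (TT P v).natDegree < r := by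
        rw [degree_eq_natDegree hQ0] at hdeg
        exact_mod_cast hdeg
      rw [hR, hDm.natDegree_mul' hR0, hDd] at h3
      rw [degree_eq_natDegree hR0]
      have h4 : R.natDegree < r - q := by omega
      exact_mod_cast h4
  · exact hR.symm

theorem rnk : RnkStmt := by
  intro N r q M z p c₀ J hJ hq hd h0 hM
  let P : Fin r → ℂ[X] := fun k => ph z (p k)
  have hPd : ∀ k, (P k).degree < (r : WithBot ℕ) := by
    intro k
    have h1 : (P k).natDegree ≤ (p k).natDegree := natDegree_map_le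
    have h2 := hd k
    refine lt_of_le_of_lt degree_le_natDegree ?_
    exact_mod_cast lt_of_le_of_lt h1 h2
  have hP0 : ∀ k, ∀ y ∈ J, eval y (P k) = 0 := by
    intro k y hy
    have h1 := h0 k y hy
    rw [← eval_ph] at h1
    exact h1
  have hr := range_le P J hJ hPd hP0
  have : Module.Finite ℂ (degreeLT ℂ (r - q)) :=
    Module.Finite.equiv (degreeLTEquiv ℂ (r - q)).symm
  have hfr : Module.finrank ℂ (degreeLT ℂ (r - q)) = r - q := by
    rw [(degreeLTEquiv ℂ (r - q)).finrank_eq, Module.finrank_fin_fun]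
  have : Module.Finite ℂ ((degreeLT ℂ (r - q)).map (LinearMap.mulLeft ℂ (∏ y ∈ J, (X - C y)))) :=
    inferInstance
  have hT : Module.finrank ℂ (LinearMap.range (TT P)) ≤ r - q := by
    refine (Submodule.finrank_mono hr).trans ?_
    refine (Submodule.finrank_map_le _ _).trans ?_
    rw [hfr]
  -- the kernel
  have hker : LinearMap.ker (TT P) ≤ LinearMap.ker (M.map (aeval z : ℤ[X] → ℂ)).mulVecLin := by
    intro v hv
    rw [LinearMap.mem_ker, TT_apply] at hv
    rw [LinearMap.mem_ker, Matrix.mulVecLin_apply]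
    apply lin_zero z N
    have h1 : ph z c₀ * ∑ k, v k • P k = 0 := by rw [hv, mul_zero]
    have h2 : ∀ k, ph z c₀ * P k = ∑ i : Fin N, (aeval z (M i k)) • ph z (h (i : ℕ)) := by
      intro k
      have h3 := congrArg (ph z) (hM k)
      rw [map_mul, map_sum] at h3
      rw [show P k = ph z (p k) from rfl, h3]
      refine Finset.sum_congr rfl fun i _ => ?_
      rw [map_mul, ph_C, smul_eq_C_mul]
    rw [Finset.mul_sum] at h1
    rw [← h1]
    have h4 : ∀ k, ph z c₀ * v k • P k =
        ∑ i : Fin N, (v k * aeval z (M i k)) • ph z (h (i : ℕ)) := by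
      intro k
      rw [mul_smul_comm, h2 k, Finset.smul_sum]
      refine Finset.sum_congr rfl fun i _ => ?_
      rw [smul_smul]
    rw [Finset.sum_congr rfl fun k _ => h4 k, Finset.sum_comm]
    refine Finset.sum_congr rfl fun i _ => ?_
    rw [← Finset.sum_smul]
    congr 1
    rw [Matrix.mulVec, dotProduct]
    refine Finset.sum_congr rfl fun k _ => ?_
    rw [Matrix.map_apply, mul_comm]
  have e1 := LinearMap.finrank_range_add_finrank_ker (TT P)
  have e2 := LinearMap.finrank_range_add_finrank_ker (M.map (aeval z : ℤ[X] → ℂ)).mulVecLin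
  have e3 := Submodule.finrank_mono hker
  have e4 : (M.map (aeval z : ℤ[X] → ℂ)).rank =
      Module.finrank ℂ (LinearMap.range (M.map (aeval z : ℤ[X] → ℂ)).mulVecLin) := rfl
  rw [e4]
  omega

end Pool.Agent.EDG.H75
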